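import Mathlib

set_option autoImplicit false

namespace Pool.Agent.Results.MP_1c213c_co.Coindex

open Finset Polynomial

/-- `A ⊎ B` is a simplex of the box complex `B(G)`. -/
def IsBoxSimplex {V : Type} (G : SimpleGraph V) (A B : Set V) : Prop :=
  Disjoint A B ∧ (∀ a ∈ A, ∀ b ∈ B, G.Adj a b) ∧
    (∃ v, ∀ a ∈ A, G.Adj a v) ∧ (∃ v, ∀ b ∈ B, G.Adj b v)

/-- Geometric realisation of `B(G)`: `(v, true)` is `+v`, `(v, false)` is `-v`; points are the
convex weightings whose support is a simplex. -/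
def boxSpace {V : Type} [Fintype V] (G : SimpleGraph V) : Set (V × Bool → ℝ) :=
  {p | (∀ x, 0 ≤ p x) ∧ ∑ x, p x = 1 ∧
    IsBoxSimplex G {v | p (v, true) ≠ 0} {v | p (v, false) ≠ 0}}

/-- There is a continuous equivariant map from the sphere `S^d` to the realisation of `B(G)`. -/
def HasSphereMap {V : Type} [Fintype V] (G : SimpleGraph V) (d : ℕ) : Prop :=
  ∃ F : Metric.sphere (0 : EuclideanSpace ℝ (Fin (d + 1))) 1 → boxSpace G,
    Continuous F ∧ ∀ y v b, (F (-y)).1 (v, b) = (F y).1 (v, !b)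

/-- The coindex of `B(G)`: the supremum of such `d`, and `-1` when there is none. -/
noncomputable def coind {V : Type} [Fintype V] (G : SimpleGraph V) : EReal :=
  sSup (insert (-1 : EReal) {x | ∃ d : ℕ, x = (d : EReal) ∧ HasSphereMap G d})

/-- The 2-colourability defect of the hypergraph on `W` with edge set `E`. -/
noncomputable def cd {W : Type} (E : Set (Finset W)) : ℕ :=
  sInf {k | ∃ U : Finset W, U.card = k ∧ ∃ c : W → Bool,
    ∀ e ∈ E, Disjoint e U → ∃ a ∈ e, ∃ b ∈ e, c a ≠ c b}

lemma zeros_le {W : Type} [Fintype W] [DecidableEq W] (a : W → ℝ) (ha : Function.Injective a) (d : ℕ)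
    (y : Fin (d + 1) → ℝ) (hy : y ≠ 0) (s : ℝ) :
    (univ.filter fun w => ∑ j, y j * a w ^ (j.1 + 1) + s = 0).card ≤ d + 1 := by
  classical
  set p : ℝ[X] := ∑ j : Fin (d + 1), C (y j) * X ^ (j.1 + 1) + C s with hp
  have hp0 : p ≠ 0 := by
    intro h
    apply hy
    funext j
    have := congrArg (fun q : ℝ[X] => q.coeff (j.1 + 1)) h
    simp only [hp, coeff_add, finsetSum_coeff, coeff_C_mul, coeff_X_pow, coeff_C_succ,
      coeff_zero, add_zero] at this
    rw [Finset.sum_eq_single j] at this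
    · simpa using this
    · intro i _ hij
      have : ¬ (j.1 + 1 = i.1 + 1) := fun h => hij (Fin.ext (by omega))
      rw [if_neg this, mul_zero]
    · simp
  have hdeg : p.natDegree ≤ d + 1 := by
    refine (natDegree_add_le _ _).trans (max_le ?_ (by simp))
    refine natDegree_sum_le_of_forall_le _ _ fun j _ => ?_
    exact (natDegree_C_mul_X_pow_le _ _).trans (by have := j.2; omega)
  refine le_trans ?_ ((card_roots' p).trans hdeg)
  refine le_trans ?_ (Multiset.toFinset_card_le p.roots)
  refine Finset.card_le_card_of_injOn a ?_ ha.injOn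
  intro w hw
  simp only [coe_filter, mem_univ, true_and, Set.mem_ofPred_eq] at hw
  simp only [Multiset.mem_toFinset, mem_coe, mem_roots hp0, IsRoot.def]
  simpa [hp, eval_finsetSum] using hw

lemma sphereMap {V W : Type} [Fintype V] [Fintype W] (G : SimpleGraph V) (ψ : V → Finset W)
    (hψ : ∀ u v, G.Adj u v ↔ Disjoint (ψ u) (ψ v)) (d : ℕ) (hd : d + 2 ≤ cd (Set.range ψ)) :
    HasSphereMap G d := by
  classical
  have hne : ∀ v, (ψ v).Nonempty := fun v => by
    rw [Finset.nonempty_iff_ne_empty]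
    intro h
    exact G.irrefl ((hψ v v).2 (by simp [h]))
  let a : W → ℝ := fun w => ((Fintype.equivFin W w : ℕ) : ℝ)
  have ha : Function.Injective a := fun u v h =>
    (Fintype.equivFin W).injective (Fin.ext (Nat.cast_injective (R := ℝ) h))
  let S := Metric.sphere (0 : EuclideanSpace ℝ (Fin (d + 1))) 1
  let L : S → W → ℝ := fun y w => ∑ j, y.1 j * a w ^ (j.1 + 1)
  have hLc : ∀ w, Continuous fun y => L y w := fun w => by
    simp only [L]; fun_prop
  have hLn : ∀ y w, L (-y) w = - L y w := fun y w => by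
    have : ∀ j, (-y).1 j = - y.1 j := fun j => rfl
    simp only [L, this, neg_mul, Finset.sum_neg_distrib]
  have key : ∀ (y : S) (s : ℝ), ∃ v, (∀ w ∈ ψ v, 0 < L y w + s) ∨ (∀ w ∈ ψ v, L y w + s < 0) := by
    intro y s
    have hy : (fun j => y.1 j) ≠ 0 := by
      intro h
      have h0 : y.1 = 0 := by ext j; exact congrFun h j
      have := y.2
      simp [S, h0] at this
    have hz := zeros_le a ha d _ hy s
    by_contra hcon
    push Not at hcon
    have : cd (Set.range ψ) ≤ (univ.filter fun w => L y w + s = 0).card := by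
      refine Nat.sInf_le ⟨_, rfl, fun w => decide (0 < L y w + s), ?_⟩
      rintro e ⟨v, rfl⟩ hdis
      obtain ⟨⟨w1, hw1, h1⟩, ⟨w2, hw2, h2⟩⟩ := hcon v
      have h2' : L y w2 + s ≠ 0 := fun h =>
        Finset.disjoint_left.1 hdis hw2 (by simp [h])
      refine ⟨w1, hw1, w2, hw2, ?_⟩
      have : 0 < L y w2 + s := lt_of_le_of_ne h2 (Ne.symm h2')
      simp [this, not_lt.2 h1]
    have : (univ.filter fun w => L y w + s = 0).card ≤ d + 1 := hz
    omega
  have hV : (univ : Finset V).Nonempty := by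
    obtain ⟨y, hy⟩ : S.Nonempty := NormedSpace.sphere_nonempty.2 zero_le_one
    obtain ⟨v, -⟩ := key ⟨y, hy⟩ 0
    exact ⟨v, mem_univ _⟩
  let m : V → S → ℝ := fun v y => (ψ v).inf' (hne v) (L y)
  have hmc : ∀ v, Continuous (m v) := fun v =>
    Continuous.finset_inf'_apply (hne v) fun w _ => hLc w
  let f : S → ℝ := fun y => univ.sup' hV fun v => m v y
  have hfc : Continuous f := Continuous.finset_sup'_apply hV fun v _ => hmc v
  have hpos : ∀ y, 0 < f y + f (-y) := by
    intro y
    obtain ⟨v, h | h⟩ := key y (- f y)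
    · have h1 : f y < m v y := (Finset.lt_inf'_iff _).2 fun w hw => by linarith [h w hw]
      have h2 : m v y ≤ f y := Finset.le_sup' (fun v => m v y) (mem_univ v)
      linarith
    · have h1 : - f y < m v (-y) := (Finset.lt_inf'_iff _).2 fun w hw => by
        rw [hLn]; linarith [h w hw]
      have h2 : m v (-y) ≤ f (-y) := Finset.le_sup' (fun v => m v (-y)) (mem_univ v)
      linarith
  let g : S → V → ℝ := fun y v => max 0 (m v y + (f (-y) - f y) / 2)
  have hgc : ∀ v, Continuous fun y => g y v := fun v => by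
    have := hmc v
    have h2 : Continuous fun y : S => f (-y) := hfc.comp continuous_neg
    simp only [g]; fun_prop
  have hg0 : ∀ y v, 0 ≤ g y v := fun y v => le_max_left _ _
  have hgex : ∀ y, ∃ v, 0 < g y v := by
    intro y
    obtain ⟨v, -, hv⟩ := Finset.exists_mem_eq_sup' hV fun v => m v y
    refine ⟨v, lt_max_of_lt_right ?_⟩
    have : f y = m v y := hv
    linarith [hpos y]
  have hadj : ∀ y u v, g y u ≠ 0 → g (-y) v ≠ 0 → G.Adj u v := by
    intro y u v hu hv
    rw [hψ, Finset.disjoint_left]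
    intro w hwu hwv
    have h1 : 0 < m u y + (f (-y) - f y) / 2 := by
      by_contra h; exact hu (max_eq_left (not_lt.1 h))
    have h2 : 0 < m v (-y) + (f (- -y) - f (-y)) / 2 := by
      by_contra h; exact hv (max_eq_left (not_lt.1 h))
    have h3 : m u y ≤ L y w := Finset.inf'_le _ hwu
    have h4 : m v (-y) ≤ L (-y) w := Finset.inf'_le _ hwv
    rw [hLn] at h4
    rw [neg_neg] at h2
    linarith
  let q : S → V × Bool → ℝ := fun y x => if x.2 then g y x.1 else g (-y) x.1
  have hq0 : ∀ y x, 0 ≤ q y x := fun y x => by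
    simp only [q]; split_ifs <;> exact hg0 _ _
  have hqc : ∀ x, Continuous fun y => q y x := fun x => by
    simp only [q]; split_ifs
    · exact hgc _
    · exact (hgc _).comp continuous_neg
  have hqn : ∀ y v b, q (-y) (v, b) = q y (v, !b) := fun y v b => by
    cases b <;> simp [q]
  let T : S → ℝ := fun y => ∑ x, q y x
  have hT : ∀ y, 0 < T y := fun y => by
    obtain ⟨v, hv⟩ := hgex y
    exact Finset.sum_pos' (fun x _ => hq0 y x) ⟨(v, true), mem_univ _, by simpa [q] using hv⟩
  have hTn : ∀ y, T (-y) = T y := fun y => by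
    simp only [T, Fintype.sum_prod_type, Fintype.sum_bool, hqn, Bool.not_true, Bool.not_false]
    exact Finset.sum_congr rfl fun v _ => add_comm _ _
  have hTc : Continuous T := continuous_finsetSum _ fun x _ => hqc x
  refine ⟨fun y => ⟨fun x => q y x / T y, fun x => div_nonneg (hq0 y x) (hT y).le, ?_, ?_⟩, ?_, ?_⟩
  · rw [← Finset.sum_div]; exact div_self (hT y).ne'
  · have hA : ∀ u ∈ {v | q y (v, true) / T y ≠ 0}, ∀ v ∈ {v | q y (v, false) / T y ≠ 0},
        G.Adj u v := by
      intro u hu v hv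
      refine hadj y u v (fun h => hu ?_) (fun h => hv ?_)
      · simp [q, h]
      · simp [q, h]
    obtain ⟨v1, h1⟩ := hgex y
    obtain ⟨v2, h2⟩ := hgex (-y)
    refine ⟨Set.disjoint_left.2 fun u hu hu' => G.irrefl (hA u hu u hu'), hA,
      ⟨v2, fun u hu => hA u hu v2 ?_⟩, ⟨v1, fun u hu => (hA v1 ?_ u hu).symm⟩⟩
    · exact div_ne_zero (by simpa [q] using h2.ne') (hT y).ne'
    · exact div_ne_zero (by simpa [q] using h1.ne') (hT y).ne'
  · exact Continuous.subtype_mk (continuous_pi fun x => (hqc x).div hTc fun y => (hT y).ne') _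
  · intro y v b
    show q (-y) (v, b) / T (-y) = q y (v, !b) / T y
    rw [hqn, hTn]

theorem result {V W : Type} [Fintype V] [Fintype W] (G : SimpleGraph V) (E : Set (Finset W))
    (ψ : V → Finset W) (_hinj : Function.Injective ψ) (hE : Set.range ψ = E)
    (hψ : ∀ u v, G.Adj u v ↔ Disjoint (ψ u) (ψ v)) :
    ((cd E : ℕ) : EReal) ≤ coind G + 2 := by
  subst hE
  by_cases h : cd (Set.range ψ) ≤ 1
  · have h1 : (-1 : EReal) ≤ coind G := le_sSup (Set.mem_insert _ _)
    have h2 : ((cd (Set.range ψ) : ℕ) : EReal) ≤ (1 : EReal) := by exact_mod_cast h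
    refine h2.trans (le_trans ?_ (add_le_add_left h1 2))
    have : ((-1 : ℝ) : EReal) + ((2 : ℝ) : EReal) = ((1 : ℝ) : EReal) := by
      rw [← EReal.coe_add]; norm_num
    exact le_of_eq this.symm
  · obtain ⟨d, hd⟩ : ∃ d, cd (Set.range ψ) = d + 2 := ⟨cd (Set.range ψ) - 2, by omega⟩
    have h1 : ((d : ℕ) : EReal) ≤ coind G :=
      le_sSup (Set.mem_insert_of_mem _ ⟨d, rfl, sphereMap G ψ hψ d hd.ge⟩)
    rw [hd]
    push_cast
    exact add_le_add_left h1 2

end Pool.Agent.Results.MP_1c213c_co.Coindex
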